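import Pool.Agent.Y381.UC.Defs

set_option autoImplicit false

open Finset

namespace Pool.Agent.Y436.UC

open Pool.Agent.Y381.UC

variable {n s : ℕ}

/-- the value of a multiple of one -/
lemma val_nsmul_one (n i : ℕ) : (i • (1 : Fin (n + 4))).val = i % (n + 4) := by
  induction i with
  | zero => simp
  | succ i ih =>
    rw [succ_nsmul, Fin.val_add, ih]
    have h1 : (1 : Fin (n + 4)).val = 1 := Fin.val_one (n + 2)
    rw [h1]
    simp [Nat.add_mod]

lemma sub_val_nsmul (v w : Fin (n + 4)) : v - (v - w).val • (1 : Fin (n + 4)) = w := by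
  have h : (v - w).val • (1 : Fin (n + 4)) = v - w := by
    apply Fin.ext
    rw [val_nsmul_one]
    exact Nat.mod_eq_of_lt (v - w).isLt
  rw [h]
  abel

/-- the vertex `i + 1` steps back differs in colour from the vertex `i` steps back -/
def PB (χ : Fin (n + 4) → Fin s) (v : Fin (n + 4)) (i : ℕ) : Prop :=
  χ (v - (i + 1) • (1 : Fin (n + 4))) ≠ χ (v - i • (1 : Fin (n + 4)))

lemma const_back (χ : Fin (n + 4) → Fin s) (v : Fin (n + 4)) (k : ℕ)
    (h : ∀ i, i < k → ¬ PB χ v i) : ∀ i, i ≤ k → χ (v - i • (1 : Fin (n + 4))) = χ v := by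
  intro i
  induction i with
  | zero => intro _; simp
  | succ i ih =>
    intro hi
    have h1 := h i (by omega)
    unfold PB at h1
    push Not at h1
    rw [h1]
    exact ih (by omega)

lemma exists_back (χ : Fin (n + 4) → Fin s) (h : ∃ v w, χ v ≠ χ w) (v : Fin (n + 4)) :
    ∃ i, i < n + 4 ∧ PB χ v i := by
  by_contra hc
  push Not at hc
  have h1 := const_back χ v (n + 4) (fun i hi => hc i hi)
  have h2 : ∀ w, χ w = χ v := by
    intro w
    have h3 := h1 (v - w).val (v - w).isLt.le
    rwa [sub_val_nsmul] at h3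
  obtain ⟨a, b, hab⟩ := h
  exact hab ((h2 a).trans (h2 b).symm)

lemma PB_iff (χ : Fin (n + 4) → Fin s) (v : Fin (n + 4)) (i : ℕ) :
    PB χ v i ↔ χ (v - (i + 1) • (1 : Fin (n + 4))) ≠
      χ (v - (i + 1) • (1 : Fin (n + 4)) + 1) := by
  unfold PB
  have h : v - (i + 1) • (1 : Fin (n + 4)) + 1 = v - i • (1 : Fin (n + 4)) := by
    rw [succ_nsmul]; abel
  rw [h]

lemma inj_back (v : Fin (n + 4)) (i k : ℕ) (hi : i < n + 4) (hk : k < n + 4)
    (h : v - (i + 1) • (1 : Fin (n + 4)) = v - (k + 1) • (1 : Fin (n + 4))) : i = k := by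
  have h1 : i • (1 : Fin (n + 4)) = k • (1 : Fin (n + 4)) := by
    rw [succ_nsmul, succ_nsmul] at h
    have h2 := sub_right_injective h
    exact add_right_cancel h2
  have h3 := congrArg Fin.val h1
  rw [val_nsmul_one, val_nsmul_one, Nat.mod_eq_of_lt hi, Nat.mod_eq_of_lt hk] at h3
  exact h3

open Classical in
lemma back_add_cuts (χ : Fin (n + 4) → Fin s) (v : Fin (n + 4)) (k : ℕ) (hk : k ≤ n + 4)
    (h : ∀ i, i < k → ¬ PB χ v i) : k + cuts χ ≤ n + 4 := by
  have h1 : ((range k).image (fun i => v - (i + 1) • (1 : Fin (n + 4)))).card = k := by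
    rw [card_image_of_injOn, card_range]
    intro i hi j hj hij
    have hi' : i < k := by simpa using hi
    have hj' : j < k := by simpa using hj
    exact inj_back v i j (by omega) (by omega) hij
  have h2 : (range k).image (fun i => v - (i + 1) • (1 : Fin (n + 4))) ⊆
      univ.filter (fun w => ¬ (χ w ≠ χ (w + 1))) := by
    intro w hw
    rw [mem_image] at hw
    obtain ⟨i, hi, rfl⟩ := hw
    rw [mem_filter]
    refine ⟨mem_univ _, ?_⟩
    have h3 := h i (by simpa using hi)
    rwa [PB_iff] at h3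
  have h3 := card_le_card h2
  have h4 := card_filter_add_card_filter_not (s := (univ : Finset (Fin (n + 4))))
    (fun w => χ w ≠ χ (w + 1))
  rw [card_univ, Fintype.card_fin] at h4
  unfold cuts
  omega

lemma two_le_cuts (χ : Fin (n + 4) → Fin s) (h : ∃ v w, χ v ≠ χ w) : 2 ≤ cuts χ := by
  classical
  by_contra hc
  have h0 : cuts χ = 0 ∨ cuts χ = 1 := by omega
  obtain ⟨i, hi, hP⟩ := exists_back χ h 0
  rw [PB_iff] at hP
  rcases h0 with h0 | h0
  · unfold cuts at h0
    rw [card_eq_zero, filter_eq_empty_iff] at h0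
    exact h0 (mem_univ _) hP
  · unfold cuts at h0
    rw [card_eq_one] at h0
    obtain ⟨a, ha⟩ := h0
    have haa : χ a ≠ χ (a + 1) := by
      have h1 : a ∈ ({a} : Finset (Fin (n + 4))) := mem_singleton_self a
      rw [← ha, mem_filter] at h1
      exact h1.2
    have h2 : ∀ i, i < n + 3 → ¬ PB χ a i := by
      intro i hi hP
      rw [PB_iff] at hP
      have h3 : a - (i + 1) • (1 : Fin (n + 4)) ∈ ({a} : Finset (Fin (n + 4))) := by
        rw [← ha, mem_filter]
        exact ⟨mem_univ _, hP⟩
      rw [mem_singleton, sub_eq_self] at h3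
      have h4 := congrArg Fin.val h3
      rw [val_nsmul_one, Nat.mod_eq_of_lt (by omega)] at h4
      simp at h4
    have h3 := const_back χ a (n + 3) h2 (n + 3) le_rfl
    have h4 : a - (n + 3) • (1 : Fin (n + 4)) = a + 1 := by
      have h5 : (n + 4) • (1 : Fin (n + 4)) = 0 := by
        apply Fin.ext
        rw [val_nsmul_one]
        simp
      have h6 : (n + 3) • (1 : Fin (n + 4)) = - 1 := by
        rw [succ_nsmul] at h5
        exact eq_neg_of_add_eq_zero_left h5
      rw [h6]
      abel
    rw [h4] at h3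
    exact haa h3.symm

theorem t_CUT : Pool.Agent.Y381.UC.S_CUT := by
  classical
  intro n s χ h
  have hex : ∀ v, ∃ i, PB χ v i := fun v => by
    obtain ⟨i, _, hi⟩ := exists_back χ h v
    exact ⟨i, hi⟩
  refine ⟨fun v => Nat.find (hex v) + 1, fun v => Nat.succ_pos _, ?_, ?_⟩
  · intro v
    obtain ⟨i, hi, hP⟩ := exists_back χ h v
    have h1 : Nat.find (hex v) ≤ i := Nat.find_min' (hex v) hP
    have h2 := back_add_cuts χ v (Nat.find (hex v)) (by omega)
      (fun i hi => Nat.find_min (hex v) hi)
    have h3 := two_le_cuts χ h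
    beta_reduce
    split_ifs with he
    · omega
    · have h4 : cuts χ ≠ 2 := by
        intro h5
        rw [h5] at he
        exact he (by decide)
      omega
  · intro v
    have hz : PB χ (v + 1) 0 ↔ χ v ≠ χ (v + 1) := by
      unfold PB
      simp
    have hs : ∀ i, PB χ (v + 1) (i + 1) ↔ PB χ v i := by
      intro i
      unfold PB
      have e1 : v + 1 - (i + 1 + 1) • (1 : Fin (n + 4)) = v - (i + 1) • (1 : Fin (n + 4)) := by
        rw [succ_nsmul _ (i + 1)]; abel
      have e2 : v + 1 - (i + 1) • (1 : Fin (n + 4)) = v - i • (1 : Fin (n + 4)) := by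
        rw [succ_nsmul]; abel
      rw [e1, e2]
    constructor
    · intro he
      beta_reduce
      congr 1
      rw [Nat.find_eq_iff]
      refine ⟨(hs _).2 (Nat.find_spec (hex v)), ?_⟩
      intro i hi
      cases i with
      | zero => rw [hz]; exact fun h' => h' he
      | succ i =>
        rw [hs]
        exact Nat.find_min (hex v) (by omega)
    · intro hne
      beta_reduce
      have h0 : Nat.find (hex (v + 1)) = 0 := by
        rw [Nat.find_eq_zero]
        exact hz.2 hne
      rw [h0]

end Pool.Agent.Y436.UC
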